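import Mathlib

set_option autoImplicit false

open Filter Set Cardinal

namespace Pool.Agent.Lib.MP_7279d0_gt

/-- A weak P-point of the remainder, in combinatorial form. -/
def IsWeakP (p : Ultrafilter ℕ) : Prop :=
  (p : Filter ℕ) ≤ cofinite ∧
    ∀ x : ℕ → Ultrafilter ℕ, (∀ n, (x n : Filter ℕ) ≤ cofinite) → (∀ n, x n ≠ p) →
      ∃ A ∈ p, ∀ n, A ∉ x n

section Generic

variable {ι κ : Type}

/-- The intersection attached to a finite condition. -/
def Y (X : ι → κ → ℕ → Set ℕ) (B : Finset ι) (σ : ι → Finset κ) : Set ℕ :=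
  {s | ∀ β ∈ B, ∀ α ∈ σ β, s ∈ X β α (σ β).card}

/-- States of the construction: a filter and the set of used indices. -/
structure St (ι : Type) where
  F : Filter ℕ
  R : Set ι

def St.le (s t : St ι) : Prop := t.F ≤ s.F ∧ s.R ⊆ t.R

lemma St.le_refl (s : St ι) : s.le s := ⟨le_rfl, subset_rfl⟩

lemma St.le_trans {s t u : St ι} (h1 : s.le t) (h2 : t.le u) : s.le u :=
  ⟨h2.1.trans h1.1, h1.2.trans h2.2⟩

def Good (X : ι → κ → ℕ → Set ℕ) (s : St ι) : Prop :=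
  s.F ≤ cofinite ∧ ∀ (B : Finset ι) (σ : ι → Finset κ), (∀ β ∈ B, β ∉ s.R) →
    ∀ E ∈ s.F, (E ∩ Y X B σ).Nonempty

def St.sup {J : Type} (s₀ : St ι) (t : J → St ι) : St ι :=
  ⟨s₀.F ⊓ ⨅ j, (t j).F, s₀.R ∪ ⋃ j, (t j).R⟩

lemma St.le_sup₀ {J : Type} (s₀ : St ι) (t : J → St ι) : s₀.le (s₀.sup t) :=
  ⟨inf_le_left, subset_union_left⟩

lemma St.le_sup {J : Type} (s₀ : St ι) (t : J → St ι) (j : J) : (t j).le (s₀.sup t) :=
  ⟨inf_le_right.trans (iInf_le _ j), (subset_iUnion (fun j => (t j).R) j).trans subset_union_right⟩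

lemma good_sup {X : ι → κ → ℕ → Set ℕ} {J : Type} [LinearOrder J] (s₀ : St ι) (t : J → St ι)
    (h₀ : Good X s₀) (ht : ∀ j, Good X (t j)) (hle : ∀ j, s₀.le (t j))
    (hmono : ∀ i j, i ≤ j → (t i).le (t j)) : Good X (s₀.sup t) := by
  refine ⟨inf_le_left.trans h₀.1, fun B σ hB E hE => ?_⟩
  rcases isEmpty_or_nonempty J with hJ | hJ
  · refine h₀.2 B σ (fun β hβ h => hB β hβ (Or.inl h)) E ?_
    simpa [St.sup] using hE
  · have hdir : Directed (· ≥ ·) fun j => (t j).F := by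
      intro i j
      exact ⟨max i j, (hmono i _ (le_max_left _ _)).1, (hmono j _ (le_max_right _ _)).1⟩
    have h1 : (s₀.sup t).F = ⨅ j, (t j).F := by
      refine inf_eq_right.mpr ?_
      obtain ⟨j⟩ := hJ
      exact (iInf_le _ j).trans (hle j).1
    rw [h1, mem_iInf_of_directed hdir] at hE
    obtain ⟨j, hj⟩ := hE
    exact (ht j).2 B σ (fun β hβ h => hB β hβ (Or.inr (mem_iUnion.mpr ⟨j, h⟩))) E hj

/-- Transfinite iteration. -/
lemma exists_all_tasks (X : ι → κ → ℕ → Set ℕ) {J : Type} [LinearOrder J] [WellFoundedLT J]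
    (hJ : ∀ j : J, #(Iio j) < 𝔠) (P : J → St ι → Prop)
    (hup : ∀ j s t, s.le t → P j s → P j t)
    (hstep : ∀ j s, Good X s → #s.R < 𝔠 →
      ∃ t, Good X t ∧ s.le t ∧ P j t ∧ (t.R \ s.R).Countable)
    (s₀ : St ι) (h₀ : Good X s₀) (hs₀ : #s₀.R < 𝔠) :
    ∃ t, Good X t ∧ s₀.le t ∧ (∀ j, P j t) ∧ (Countable J → (t.R \ s₀.R).Countable) := by
  classical
  let step : J → St ι → St ι := fun j s =>
    if h : Good X s ∧ #s.R < 𝔠 then (hstep j s h.1 h.2).choose else s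
  have step_le : ∀ j (s : St ι), s.le (step j s) := by
    intro j s
    simp only [step]
    split_ifs with h
    · exact (hstep j s h.1 h.2).choose_spec.2.1
    · exact s.le_refl
  have step_count : ∀ j s, ((step j s).R \ s.R).Countable := by
    intro j s
    simp only [step]
    split_ifs with h
    · exact (hstep j s h.1 h.2).choose_spec.2.2.2
    · simp
  have step_good : ∀ j s, Good X s → #s.R < 𝔠 → Good X (step j s) ∧ P j (step j s) := by
    intro j s h1 h2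
    simp only [step, dif_pos (And.intro h1 h2)]
    exact ⟨(hstep j s h1 h2).choose_spec.1, (hstep j s h1 h2).choose_spec.2.2.1⟩
  let t : J → St ι := (wellFounded_lt (α := J)).fix
    (fun j rec => step j (s₀.sup (fun i : Iio j => rec i.1 i.2)))
  let u : J → St ι := fun j => s₀.sup (fun i : Iio j => t i.1)
  have ht : ∀ j, t j = step j (u j) := fun j => WellFounded.fix_eq _ _ j
  have hut : ∀ j, (u j).le (t j) := fun j => ht j ▸ step_le j (u j)
  have h0t : ∀ j, s₀.le (t j) := fun j => St.le_trans (St.le_sup₀ _ _) (hut j)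
  have hmono : ∀ i j, i ≤ j → (t i).le (t j) := by
    intro i j hij
    rcases hij.eq_or_lt with rfl | hlt
    · exact St.le_refl _
    · exact St.le_trans (St.le_sup s₀ (fun i : Iio j => t i.1) ⟨i, hlt⟩) (hut j)
  let N : J → Set ι := fun j => (t j).R \ (u j).R
  have hN : ∀ j, (N j).Countable := fun j => by
    simp only [N, ht j]
    exact step_count j (u j)
  have hR : ∀ j, (t j).R ⊆ s₀.R ∪ ⋃ i ∈ Iic j, N i := by
    intro j
    induction j using WellFoundedLT.induction with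
    | ind j ih =>
      intro β hβ
      by_cases hu : β ∈ (u j).R
      · rcases hu with h | h
        · exact Or.inl h
        · obtain ⟨⟨i, hi⟩, h⟩ := mem_iUnion.mp h
          rcases ih i hi h with h | h
          · exact Or.inl h
          · obtain ⟨k, hk, h⟩ := mem_iUnion₂.mp h
            exact Or.inr (mem_iUnion₂.mpr ⟨k, le_trans hk (le_of_lt hi), h⟩)
      · exact Or.inr (mem_iUnion₂.mpr ⟨j, le_refl j, hβ, hu⟩)
  have hsmall : ∀ j, #(u j).R < 𝔠 := by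
    intro j
    have h1 : (u j).R ⊆ s₀.R ∪ ⋃ i : Iio j, N i.1 := by
      rintro β (h | h)
      · exact Or.inl h
      · obtain ⟨⟨i, hi⟩, h⟩ := mem_iUnion.mp h
        rcases hR i h with h | h
        · exact Or.inl h
        · obtain ⟨k, hk, h⟩ := mem_iUnion₂.mp h
          exact Or.inr (mem_iUnion.mpr ⟨⟨k, lt_of_le_of_lt hk hi⟩, h⟩)
    refine (mk_le_mk_of_subset h1).trans_lt ((mk_union_le _ _).trans_lt ?_)
    refine add_lt_of_lt aleph0_le_continuum hs₀ ?_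
    refine (mk_iUnion_le _).trans_lt ?_
    refine mul_lt_of_lt aleph0_le_continuum (hJ j) ?_
    refine lt_of_le_of_lt (ciSup_le' fun i => ?_) aleph0_lt_continuum
    exact le_aleph0_iff_set_countable.mpr (hN i.1)
  have hgood : ∀ j, Good X (t j) ∧ P j (t j) := by
    intro j
    induction j using WellFoundedLT.induction with
    | ind j ih =>
      rw [ht j]
      refine step_good j (u j) ?_ (hsmall j)
      exact good_sup s₀ _ h₀ (fun i => (ih i.1 i.2).1) (fun i => h0t i.1)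
        (fun i k hik => hmono i.1 k.1 hik)
  refine ⟨s₀.sup t, good_sup s₀ t h₀ (fun j => (hgood j).1) h0t hmono, St.le_sup₀ _ _,
    fun j => hup j _ _ (St.le_sup s₀ t j) (hgood j).2, fun hc => ?_⟩
  refine (countable_iUnion hN).mono ?_
  rintro β ⟨h | h, h'⟩
  · exact absurd h h'
  · obtain ⟨j, h⟩ := mem_iUnion.mp h
    rcases hR j h with h | h
    · exact absurd h h'
    · obtain ⟨k, _, h⟩ := mem_iUnion₂.mp h
      exact mem_iUnion.mpr ⟨k, h⟩

lemma Y_union [DecidableEq ι] (X : ι → κ → ℕ → Set ℕ) (B B' : Finset ι) (σ σ' : ι → Finset κ)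
    (h : ∀ β ∈ B', β ∉ B) :
    Y X (B ∪ B') (fun β => if β ∈ B then σ β else σ' β) ⊆ Y X B σ ∩ Y X B' σ' := by
  intro s hs
  refine ⟨fun β hβ α hα => ?_, fun β hβ α hα => ?_⟩
  · have := hs β (Finset.mem_union_left _ hβ) α (by simpa [hβ] using hα)
    simpa [hβ] using this
  · have := hs β (Finset.mem_union_right _ hβ) α (by simpa [h β hβ] using hα)
    simpa [h β hβ] using this

/-- Deciding one set. -/
lemma decide_step (X : ι → κ → ℕ → Set ℕ) (A : Set ℕ) (s : St ι) (hs : Good X s) :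
    ∃ t, Good X t ∧ s.le t ∧ (A ∈ t.F ∨ Aᶜ ∈ t.F) ∧ (t.R \ s.R).Countable := by
  classical
  by_cases h : Good X ⟨s.F ⊓ 𝓟 A, s.R⟩
  · exact ⟨_, h, ⟨inf_le_left, subset_rfl⟩, Or.inl (mem_inf_of_right (mem_principal_self A)),
      by simp⟩
  · simp only [Good, not_and, not_forall] at h
    obtain ⟨B, σ, hB, E, hE, hne⟩ := h (inf_le_left.trans hs.1)
    obtain ⟨E₁, hE₁, A', hA', rfl⟩ := mem_inf_iff.mp hE
    refine ⟨⟨s.F ⊓ 𝓟 (Y X B σ), s.R ∪ B⟩, ⟨inf_le_left.trans hs.1, ?_⟩,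
      ⟨inf_le_left, subset_union_left⟩, Or.inr ?_, ?_⟩
    · intro B' σ' hB' E hE
      obtain ⟨E₂, hE₂, Y', hY', rfl⟩ := mem_inf_iff.mp hE
      obtain ⟨x, hx1, hx2⟩ := hs.2 (B ∪ B') (fun β => if β ∈ B then σ β else σ' β) (by
        intro β hβ
        rcases Finset.mem_union.mp hβ with h | h
        · exact hB β h
        · exact fun h' => hB' β h (Or.inl h')) E₂ hE₂
      have := Y_union X B B' σ σ' (fun β hβ h => hB' β hβ (Or.inr h)) hx2
      exact ⟨x, ⟨hx1, hY' this.1⟩, this.2⟩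
    · refine mem_of_superset (inter_mem_inf hE₁ (mem_principal_self _)) ?_
      rintro x ⟨hx1, hx2⟩ hxA
      exact hne ⟨x, ⟨hx1, hA' hxA⟩, hx2⟩
    · refine (B.finite_toSet.countable).mono ?_
      rintro β ⟨h | h, h'⟩
      · exact absurd h h'
      · exact h

/-- The task attached to a sequence of sets. -/
def Task (κ : Type) (C : ℕ → Set ℕ) (s : St ι) : Prop :=
  (∃ n, (C n)ᶜ ∈ s.F) ∨ ∃ V : κ → Set ℕ, (∀ α, V α ∈ s.F) ∧
    ∀ (n : ℕ) (σ : Finset κ), σ.card = n + 1 → ({x | ∀ α ∈ σ, x ∈ V α} \ C n).Finite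

lemma ok_step (X : ι → κ → ℕ → Set ℕ)
    (hmono : ∀ β α m n, m ≤ n → X β α m ⊆ X β α n)
    (hlink : ∀ β (n : ℕ) (σ : Finset κ), σ.card = n + 1 → {x | ∀ α ∈ σ, x ∈ X β α n}.Finite)
    (C : ℕ → Set ℕ) (s : St ι) (hs : Good X s) (hC : ∀ n, C n ∈ s.F) (β₀ : ι) (hβ₀ : β₀ ∉ s.R) :
    ∃ t, Good X t ∧ s.le t ∧ Task κ C t ∧ (t.R \ s.R).Countable := by
  classical
  let ℓ : ℕ → ℕ := fun x => Nat.findGreatest (fun n => ∀ m < n, x ∈ C m) x
  have hℓ1 : ∀ n, {x | n ≤ ℓ x} ∈ s.F := by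
    intro n
    have h1 : {x | n ≤ x} ∈ s.F := hs.1 (by
      rw [mem_cofinite]
      exact (finite_lt_nat n).subset fun x hx => by simpa using hx)
    have h2 : {x | ∀ m < n, x ∈ C m} ∈ s.F := by
      have : {x | ∀ m < n, x ∈ C m} = ⋂ m ∈ Finset.range n, C m := by ext; simp
      rw [this, biInter_finset_mem]
      exact fun m _ => hC m
    filter_upwards [h1, h2] with x hx1 hx2
    exact Nat.le_findGreatest hx1 hx2
  have hℓ2 : ∀ n x, n + 1 ≤ ℓ x → x ∈ C n := by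
    intro n x hx
    have : ∀ m < ℓ x, x ∈ C m :=
      Nat.findGreatest_spec (P := fun n => ∀ m < n, x ∈ C m) (Nat.zero_le x) (by simp)
    exact this n hx
  let V : κ → Set ℕ := fun α => {x | x ∈ X β₀ α (ℓ x)}
  refine ⟨⟨s.F ⊓ ⨅ α, 𝓟 (V α), s.R ∪ {β₀}⟩, ⟨inf_le_left.trans hs.1, ?_⟩,
    ⟨inf_le_left, subset_union_left⟩, Or.inr ⟨V, fun α => ?_, fun n σ hσ => ?_⟩, ?_⟩
  · intro B σ hB E hE
    obtain ⟨E₁, hE₁, E₂, hE₂, rfl⟩ := mem_inf_iff.mp hE
    obtain ⟨σ₀, hσ₀⟩ := (mem_iInf_finite E₂).mp hE₂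
    rw [iInf_principal_finset, mem_principal] at hσ₀
    obtain ⟨x, ⟨hx1, hx3⟩, hx2⟩ := hs.2 ({β₀} ∪ B)
      (fun β => if β ∈ ({β₀} : Finset ι) then σ₀ else σ β) (by
        intro β hβ
        rcases Finset.mem_union.mp hβ with h | h
        · rwa [Finset.mem_singleton.mp h]
        · exact fun h' => hB β h (Or.inl h')) _ (inter_mem hE₁ (hℓ1 σ₀.card))
    have := Y_union X {β₀} B (fun _ => σ₀) σ
      (fun β hβ h => hB β hβ (Or.inr (Finset.mem_singleton.mp h))) hx2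
    refine ⟨x, ⟨hx1, hσ₀ ?_⟩, this.2⟩
    simp only [mem_iInter]
    intro α hα
    exact hmono β₀ α _ _ hx3 (this.1 β₀ (Finset.mem_singleton_self _) α hα)
  · exact mem_inf_of_right (mem_iInf_of_mem α (mem_principal_self _))
  · refine (hlink β₀ n σ hσ).subset ?_
    rintro x ⟨hx1, hx2⟩ α hα
    refine hmono β₀ α _ _ ?_ (hx1 α hα)
    by_contra h
    exact hx2 (hℓ2 n x (by omega))
  · refine (countable_singleton β₀).mono ?_
    rintro β ⟨h | h, h'⟩
    · exact absurd h h'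
    · exact h

lemma task_step (X : ι → κ → ℕ → Set ℕ) (hι : 𝔠 ≤ #ι)
    (hmono : ∀ β α m n, m ≤ n → X β α m ⊆ X β α n)
    (hlink : ∀ β (n : ℕ) (σ : Finset κ), σ.card = n + 1 → {x | ∀ α ∈ σ, x ∈ X β α n}.Finite)
    (C : ℕ → Set ℕ) (s : St ι) (hs : Good X s) (hsm : #s.R < 𝔠) :
    ∃ t, Good X t ∧ s.le t ∧ Task κ C t ∧ (t.R \ s.R).Countable := by
  obtain ⟨t, ht1, ht2, ht3, ht4⟩ := exists_all_tasks X (J := ℕ)
    (fun j => (le_aleph0_iff_set_countable.mpr (to_countable _)).trans_lt aleph0_lt_continuum)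
    (fun n s => C n ∈ s.F ∨ (C n)ᶜ ∈ s.F)
    (fun n s t hst h => h.imp (fun h => hst.1 h) (fun h => hst.1 h))
    (fun n s hs _ => decide_step X (C n) s hs) s hs hsm
  have ht5 := ht4 inferInstance
  by_cases h : ∃ n, (C n)ᶜ ∈ t.F
  · exact ⟨t, ht1, ht2, Or.inl h, ht5⟩
  · have hC : ∀ n, C n ∈ t.F := fun n => (ht3 n).resolve_right fun h' => h ⟨n, h'⟩
    have hsmall : #t.R < 𝔠 := by
      have : t.R ⊆ s.R ∪ (t.R \ s.R) := by
        intro β hβ
        by_cases h : β ∈ s.R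
        · exact Or.inl h
        · exact Or.inr ⟨hβ, h⟩
      refine (mk_le_mk_of_subset this).trans_lt ((mk_union_le _ _).trans_lt ?_)
      exact add_lt_of_lt aleph0_le_continuum hsm
        ((le_aleph0_iff_set_countable.mpr ht5).trans_lt aleph0_lt_continuum)
    obtain ⟨β₀, hβ₀⟩ : ∃ β₀, β₀ ∉ t.R := by
      by_contra! h
      rw [eq_univ_of_forall h, mk_univ] at hsmall
      exact absurd hι (not_le.mpr hsmall)
    obtain ⟨w, hw1, hw2, hw3, hw4⟩ := ok_step X hmono hlink C t ht1 hC β₀ hβ₀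
    refine ⟨w, hw1, St.le_trans ht2 hw2, hw3, (hw4.union ht5).mono ?_⟩
    rintro β ⟨h1, h2⟩
    by_cases h : β ∈ t.R
    · exact Or.inr ⟨h, h2⟩
    · exact Or.inl ⟨h1, h⟩

/-- Kunen: a filter modulo which a large linked family is independent extends to a weak
P-point. -/
theorem exists_weakP (X : ι → κ → ℕ → Set ℕ) (hι : 𝔠 ≤ #ι) (hκ : ℵ₀ < #κ)
    (hmono : ∀ β α m n, m ≤ n → X β α m ⊆ X β α n)
    (hlink : ∀ β (n : ℕ) (σ : Finset κ), σ.card = n + 1 → {x | ∀ α ∈ σ, x ∈ X β α n}.Finite)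
    (F : Filter ℕ) (hF : Good X ⟨F, ∅⟩) : ∃ p : Ultrafilter ℕ, (p : Filter ℕ) ≤ F ∧ IsWeakP p := by
  classical
  obtain ⟨_, _, hord⟩ := exists_ord_eq_type_lt (ℕ → Set ℕ)
  have hcard : #(ℕ → Set ℕ) = 𝔠 := by simp
  obtain ⟨t, ht1, ht2, ht3, -⟩ := exists_all_tasks X (J := ℕ → Set ℕ)
    (fun j => hcard ▸ mk_Iio_lt j hord) (fun C s => Task κ C s)
    (fun C s t hst h => h.imp (fun ⟨n, h⟩ => ⟨n, hst.1 h⟩)
      (fun ⟨V, h1, h2⟩ => ⟨V, fun α => hst.1 (h1 α), h2⟩))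
    (fun C s hs hsm => task_step X hι hmono hlink C s hs hsm) ⟨F, ∅⟩ hF
    (by simpa using continuum_pos)
  have hne : t.F.NeBot := by
    rw [← forall_mem_nonempty_iff_neBot]
    intro E hE
    exact (ht1.2 ∅ (fun _ => ∅) (by simp) E hE).mono inter_subset_left
  obtain ⟨p, hp⟩ := Ultrafilter.exists_le t.F
  refine ⟨p, hp.trans ht2.1, hp.trans ht1.1, fun x hx hxp => ?_⟩
  have hC : ∀ n, ∃ A ∈ p, A ∉ x n := by
    intro n
    by_contra! h
    exact hxp n (Ultrafilter.eq_of_le (fun A hA => h A hA))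
  choose C hC1 hC2 using hC
  rcases ht3 C with ⟨n, hn⟩ | ⟨V, hV1, hV2⟩
  · exact absurd (hC1 n) (Ultrafilter.compl_mem_iff_notMem.mp (hp hn))
  · by_contra! h
    have h' : ∀ α, ∃ n, V α ∈ x n := fun α => h (V α) (hp (hV1 α))
    choose m hm using h'
    have : Infinite κ := infinite_iff.mpr hκ.le
    obtain ⟨n, hn⟩ := exists_infinite_fiber m (by simpa using hκ)
    obtain ⟨σ, hσ1, hσ2⟩ := (infinite_coe_iff.mp hn).exists_subset_card_eq (n + 1)
    have h1 : {y | ∀ α ∈ σ, y ∈ V α} ∈ x n := by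
      have : {y | ∀ α ∈ σ, y ∈ V α} = ⋂ α ∈ σ, V α := by ext; simp
      rw [this, ← Ultrafilter.mem_coe, biInter_finset_mem]
      intro α hα
      have : m α = n := hσ1 hα
      exact this ▸ hm α
    have h2 : ({y | ∀ α ∈ σ, y ∈ V α} \ C n)ᶜ ∈ x n := hx n (hV2 n σ hσ2).compl_mem_cofinite
    apply hC2 n
    rw [← Ultrafilter.mem_coe] at h1 h2 ⊢
    filter_upwards [h1, h2] with y hy1 hy2
    by_contra h
    exact hy2 ⟨hy1, h⟩

end Generic

end Pool.Agent.Lib.MP_7279d0_gt
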