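import Mathlib
import Pool.Agent.Lib.MP_7279d0_gt.Kunen

set_option autoImplicit false

open Filter Set Cardinal

namespace Pool.Agent.Lib.MP_7279d0_gt

/-- Restriction of a binary sequence to its first `k` terms. -/
def res (k : ℕ) (α : ℕ → Bool) : Fin k → Bool := fun i => α i

lemma eventually_injOn (T : Finset (ℕ → Bool)) :
    ∀ᶠ k in atTop, InjOn (res k) (T : Set (ℕ → Bool)) := by
  have h : ∀ a b : ℕ → Bool, ∀ᶠ k in atTop, res k a = res k b → a = b := by
    intro a b
    by_cases hab : a = b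
    · exact Eventually.of_forall fun _ _ => hab
    · obtain ⟨i, hi⟩ := Function.ne_iff.mp hab
      filter_upwards [eventually_gt_atTop i] with k hk h
      exact absurd (congrFun h ⟨i, hk⟩) hi
  have h2 : ∀ᶠ k in atTop, ∀ a ∈ T, ∀ b ∈ T, res k a = res k b → a = b := by
    simp only [eventually_all_finset]
    exact fun a _ b _ => h a b
  filter_upwards [h2] with k hk a ha b hb using hk a ha b hb

/-- The countable base set of the independent linked family. -/
abbrev Base : Type := Σ k : ℕ, ((Fin k → Bool) → Finset (Fin k → Bool))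

/-- The independent linked family on `Base`. -/
def XB (β α : ℕ → Bool) (n : ℕ) : Set Base :=
  {s | (s.2 (res s.1 β)).card ≤ n ∧ res s.1 α ∈ s.2 (res s.1 β)}

lemma finite_base_lt (k₀ : ℕ) : {s : Base | s.1 < k₀}.Finite := by
  have : {s : Base | s.1 < k₀} = ⋃ k ∈ Finset.range k₀, range (fun f => (⟨k, f⟩ : Base)) := by
    ext ⟨k, f⟩
    simp only [mem_ofPred_eq, Finset.mem_range, mem_iUnion, mem_range, exists_prop]
    constructor
    · exact fun h => ⟨k, h, f, rfl⟩
    · rintro ⟨k', h, f', h2⟩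
      cases h2
      exact h
  rw [this]
  exact (Finset.range k₀).finite_toSet.biUnion fun k _ => finite_range _

lemma XB_link (β : ℕ → Bool) (n : ℕ) (σ : Finset (ℕ → Bool)) (hσ : σ.card = n + 1) :
    {s | ∀ α ∈ σ, s ∈ XB β α n}.Finite := by
  classical
  obtain ⟨k₀, hk₀⟩ := eventually_atTop.mp (eventually_injOn σ)
  refine (finite_base_lt k₀).subset ?_
  rintro ⟨k, f⟩ hs
  by_contra hk
  have hk : k₀ ≤ k := by simpa using hk
  obtain ⟨α₀, hα₀⟩ : σ.Nonempty := Finset.card_pos.mp (by omega)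
  have h1 : (f (res k β)).card ≤ n := (hs α₀ hα₀).1
  have h2 : σ.image (res k) ⊆ f (res k β) := by
    intro a ha
    obtain ⟨α, hα, rfl⟩ := Finset.mem_image.mp ha
    exact (hs α hα).2
  have h3 := Finset.card_le_card h2
  rw [Finset.card_image_of_injOn (hk₀ k hk)] at h3
  omega

lemma XB_indep {ι : Type} (e : ι → (ℕ → Bool)) (he : Function.Injective e) (B : Finset ι)
    (σ : ι → Finset (ℕ → Bool)) :
    {s : Base | ∀ β ∈ B, ∀ α ∈ σ β, s ∈ XB (e β) α (σ β).card}.Infinite := by
  classical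
  obtain ⟨k₀, hk₀⟩ := eventually_atTop.mp (eventually_injOn (B.image e))
  let g : ℕ → Base := fun j => ⟨k₀ + j, fun t =>
    (B.filter (fun β => res (k₀ + j) (e β) = t)).biUnion (fun β => (σ β).image (res (k₀ + j)))⟩
  have hg : Function.Injective g := by
    intro i j h
    have := congrArg Sigma.fst h
    simpa [g] using this
  refine infinite_of_injective_forall_mem hg fun j β hβ α hα => ?_
  have h1 : B.filter (fun β' => res (k₀ + j) (e β') = res (k₀ + j) (e β)) = {β} := by
    ext β'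
    simp only [Finset.mem_filter, Finset.mem_singleton]
    constructor
    · rintro ⟨h1, h2⟩
      exact he (hk₀ _ (Nat.le_add_right _ _) (by simpa using ⟨β', h1, rfl⟩)
        (by simpa using ⟨β, hβ, rfl⟩) h2)
    · rintro rfl
      exact ⟨hβ, rfl⟩
  simp only [XB, g, mem_ofPred_eq, h1, Finset.singleton_biUnion]
  exact ⟨Finset.card_image_le, Finset.mem_image_of_mem _ hα⟩

/-- There are `2 ^ 𝔠` weak P-points. -/
theorem exists_many_weakP : ∃ P : ((ℕ → Bool) → Bool) → Ultrafilter ℕ,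
    Function.Injective P ∧ ∀ s, IsWeakP (P s) := by
  classical
  have : Infinite Base := Infinite.of_injective (fun k : ℕ => (⟨k, fun _ => ∅⟩ : Base))
    (fun i j h => congrArg Sigma.fst h)
  obtain ⟨q⟩ : Nonempty (ℕ ≃ Base) := nonempty_equiv_of_countable
  obtain ⟨e⟩ : Nonempty (((ℕ → Bool) ⊕ (ℕ → Bool)) ↪ (ℕ → Bool)) := by
    rw [← Cardinal.le_def]
    simp
  let Z : ((ℕ → Bool) ⊕ (ℕ → Bool)) → (ℕ → Bool) → ℕ → Set ℕ :=
    fun β α n => q ⁻¹' XB (e β) α n
  have hmono : ∀ β α m n, m ≤ n → Z β α m ⊆ Z β α n :=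
    fun β α m n h x hx => ⟨hx.1.trans h, hx.2⟩
  have hlink : ∀ β (n : ℕ) (σ : Finset (ℕ → Bool)), σ.card = n + 1 →
      {x | ∀ α ∈ σ, x ∈ Z β α n}.Finite := fun β n σ hσ =>
    (XB_link (e β) n σ hσ).preimage q.injective.injOn
  have hind : ∀ B σ, (Y Z B σ).Infinite := fun B σ =>
    (XB_indep e e.injective B σ).preimage (by simp)
  have key : ∀ s : (ℕ → Bool) → Bool, ∃ p : Ultrafilter ℕ,
      (∀ β, Z (Sum.inr β) (fun _ => s β) 1 ∈ p) ∧ IsWeakP p := by
    intro s
    obtain ⟨p, hp1, hp2⟩ := exists_weakP (fun β => Z (Sum.inl β)) (by simp)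
      (by simpa using aleph0_lt_continuum)
      (fun β => hmono _) (fun β => hlink _)
      (cofinite ⊓ ⨅ β, 𝓟 (Z (Sum.inr β) (fun _ => s β) 1)) (by
        refine ⟨inf_le_left, fun B σ _ E hE => ?_⟩
        obtain ⟨E₁, hE₁, E₂, hE₂, rfl⟩ := mem_inf_iff.mp hE
        obtain ⟨B₁, hB₁⟩ := (mem_iInf_finite E₂).mp hE₂
        rw [iInf_principal_finset, mem_principal] at hB₁
        obtain ⟨x, hx1, hx2⟩ := ((hind (B.disjSum B₁)
          (Sum.elim σ (fun β => {fun _ => s β}))).sdiff (mem_cofinite.mp hE₁)).nonempty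
        refine ⟨x, ⟨by simpa using hx2, hB₁ ?_⟩, fun β hβ α hα => ?_⟩
        · simp only [mem_iInter]
          intro β hβ
          simpa using hx1 (Sum.inr β) (by simpa using hβ) (fun _ => s β) (by simp)
        · exact hx1 (Sum.inl β) (by simpa using hβ) α hα)
    exact ⟨p, fun β => hp1 (mem_inf_of_right (mem_iInf_of_mem β (mem_principal_self _))), hp2⟩
  choose P hP1 hP2 using key
  refine ⟨P, fun s t hst => ?_, hP2⟩
  funext β
  by_contra hne
  have h1 := hP1 s β
  have h2 := hP1 t β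
  rw [← hst] at h2
  have h3 := hlink (Sum.inr β) 1 {fun _ => s β, fun _ => t β}
    (Finset.card_pair fun h => hne (congrFun h 0))
  have h4 := (hP2 s).1 h3.compl_mem_cofinite
  rw [← Ultrafilter.mem_coe] at h1 h2
  obtain ⟨x, ⟨hx1, hx2⟩, hx3⟩ := (P s).neBot.nonempty_of_mem (inter_mem (inter_mem h1 h2) h4)
  apply hx3
  intro α hα
  simp only [Finset.mem_insert, Finset.mem_singleton] at hα
  rcases hα with rfl | rfl
  · exact hx1
  · exact hx2

end Pool.Agent.Lib.MP_7279d0_gt
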