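import Mathlib
import Pool.Agent.Lib.MP_7279d0_gt.Linked

set_option autoImplicit false

open Filter Set Cardinal Topology

namespace Pool.Agent.Lib.MP_7279d0_gt

lemma tendsto_ultra_iff {α : Type} {l : Filter α} {y : α → Ultrafilter ℕ} {x : Ultrafilter ℕ} :
    Tendsto y l (𝓝 x) ↔ ∀ A ∈ x, ∀ᶠ n in l, A ∈ y n := by
  rw [ultrafilterBasis_is_basis.nhds_hasBasis.tendsto_right_iff]
  constructor
  · intro h A hA
    exact h {u | A ∈ u} ⟨⟨A, rfl⟩, hA⟩
  · rintro h _ ⟨⟨A, rfl⟩, hA⟩
    exact h A hA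

lemma IsWeakP.on_set {p : Ultrafilter ℕ} (hp : IsWeakP p) (y : ℕ → Ultrafilter ℕ) (E : Set ℕ)
    (hy : ∀ n ∈ E, (y n : Filter ℕ) ≤ cofinite ∧ y n ≠ p) : ∃ A ∈ p, ∀ n ∈ E, A ∉ y n := by
  classical
  rcases E.eq_empty_or_nonempty with rfl | ⟨n₀, hn₀⟩
  · exact ⟨univ, univ_mem, by simp⟩
  · obtain ⟨A, hA, h⟩ := hp.2 (fun n => if n ∈ E then y n else y n₀)
      (fun n => by split_ifs with h; exacts [(hy n h).1, (hy n₀ hn₀).1])
      (fun n => by split_ifs with h; exacts [(hy n h).2, (hy n₀ hn₀).2])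
    exact ⟨A, hA, fun n hn => by simpa [hn] using h n⟩

/-- Separated countable sets of ultrafilters are separated by one set. -/
lemma separate (d y : ℕ → Ultrafilter ℕ) (M E : Set ℕ)
    (h1 : ∀ m ∈ M, ∃ A ∈ d m, ∀ n ∈ E, A ∉ y n) (h2 : ∀ n ∈ E, ∃ B ∈ y n, ∀ m ∈ M, B ∉ d m) :
    ∃ Z : Set ℕ, (∀ m ∈ M, Z ∈ d m) ∧ ∀ n ∈ E, Z ∉ y n := by
  classical
  choose! A hA1 hA2 using h1
  choose! B hB1 hB2 using h2
  refine ⟨{x | ∃ m ∈ M, x ∈ A m ∧ ∀ n ∈ E, n ≤ m → x ∉ B n}, fun m hm => ?_, fun n hn h => ?_⟩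
  · have h3 : ∀ᶠ x in (d m : Filter ℕ), ∀ n ∈ Finset.range (m + 1), n ∈ E → x ∉ B n := by
      rw [eventually_all_finset]
      intro n _
      by_cases hn : n ∈ E
      · filter_upwards [Ultrafilter.compl_mem_iff_notMem.mpr (hB2 n hn m hm)] with x hx _ using hx
      · exact Eventually.of_forall fun x h => absurd h hn
    rw [← Ultrafilter.mem_coe]
    filter_upwards [h3, Ultrafilter.mem_coe.mpr (hA1 m hm)] with x hx1 hx2
    exact ⟨m, hm, hx2, fun n hn hnm => hx1 n (Finset.mem_range.mpr (by omega)) hn⟩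
  · have h3 : ∀ᶠ x in (y n : Filter ℕ), ∀ m ∈ Finset.range n, m ∈ M → x ∉ A m := by
      rw [eventually_all_finset]
      intro m _
      by_cases hm : m ∈ M
      · filter_upwards [Ultrafilter.compl_mem_iff_notMem.mpr (hA2 m hm n hn)] with x hx _ using hx
      · exact Eventually.of_forall fun x h => absurd h hm
    obtain ⟨x, ⟨⟨m, hm, hx1, hx2⟩, hx3⟩, hx4⟩ := (y n).neBot.nonempty_of_mem
      (inter_mem (inter_mem (Ultrafilter.mem_coe.mpr h) (Ultrafilter.mem_coe.mpr (hB1 n hn))) h3)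
    rcases le_or_gt n m with hnm | hnm
    · exact hx2 n hn hnm hx3
    · exact hx4 m (Finset.mem_range.mpr hnm) hm hx1

section Seq

variable {d : ℕ → Ultrafilter ℕ}

lemma tendsto_extend (d : ℕ → Ultrafilter ℕ) (r : Ultrafilter ℕ) :
    Tendsto d r (𝓝 (Ultrafilter.extend d r)) :=
  ultrafilter_extend_eq_iff.mp rfl

lemma mem_extend_of (d : ℕ → Ultrafilter ℕ) (r : Ultrafilter ℕ) (Z : Set ℕ)
    (h : ∀ᶠ m in (r : Filter ℕ), Z ∈ d m) : Z ∈ Ultrafilter.extend d r := by
  by_contra hZ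
  have h2 := tendsto_ultra_iff.mp (tendsto_extend d r) Zᶜ
    (Ultrafilter.compl_mem_iff_notMem.mpr hZ)
  obtain ⟨m, hm1, hm2⟩ := (h.and h2).exists
  exact Ultrafilter.compl_mem_iff_notMem.mp hm2 hm1

lemma extend_le_cofinite (hd : ∀ m, IsWeakP (d m)) (r : Ultrafilter ℕ) :
    ((Ultrafilter.extend d r : Ultrafilter ℕ) : Filter ℕ) ≤ cofinite := fun Z hZ =>
  mem_extend_of d r Z (Eventually.of_forall fun m => (hd m).1 hZ)

lemma extend_injective (hd : ∀ m, IsWeakP (d m)) (hinj : Function.Injective d) :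
    Function.Injective (Ultrafilter.extend d) := by
  intro r r' h
  by_contra hne
  obtain ⟨M, hM, hM'⟩ : ∃ M ∈ r', M ∉ r := by
    by_contra! h
    exact hne (Ultrafilter.eq_of_le (fun A hA => h A hA))
  obtain ⟨Z, hZ1, hZ2⟩ := separate d d M Mᶜ
    (fun m hm => (hd m).on_set d Mᶜ fun n hn => ⟨(hd n).1, fun h => hn (hinj h ▸ hm)⟩)
    (fun n hn => (hd n).on_set d M fun m hm => ⟨(hd m).1, fun h => hn (hinj h ▸ hm)⟩)
  have h1 : Z ∈ Ultrafilter.extend d r' :=
    mem_extend_of d r' Z (mem_of_superset (Ultrafilter.mem_coe.mpr hM) hZ1)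
  have h2 : Zᶜ ∈ Ultrafilter.extend d r :=
    mem_extend_of d r Zᶜ (mem_of_superset
      (Ultrafilter.mem_coe.mpr (Ultrafilter.compl_mem_iff_notMem.mpr hM'))
      fun n hn => Ultrafilter.compl_mem_iff_notMem.mpr (hZ2 n hn))
  rw [h] at h2
  exact Ultrafilter.compl_mem_iff_notMem.mp h2 h1

/-- If the `p`-limit of a sequence of distinct weak P-points is a nontrivial `q`-limit of free
ultrafilters, with `p` a weak P-point, then `p` is Rudin-Keisler below `q`. -/
lemma rk_le (hd : ∀ m, IsWeakP (d m)) (hinj : Function.Injective d) {p : Ultrafilter ℕ}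
    (hp : IsWeakP p) (q : Ultrafilter ℕ) (y : ℕ → Ultrafilter ℕ)
    (hy1 : ∀ n, (y n : Filter ℕ) ≤ cofinite) (hy2 : ∀ n, y n ≠ Ultrafilter.extend d p)
    (hy3 : Tendsto y q (𝓝 (Ultrafilter.extend d p))) : ∃ h : ℕ → ℕ, q.map h = p := by
  classical
  set φ := Ultrafilter.extend d with hφ
  have hφc : Continuous φ := continuous_ultrafilter_extend d
  have hφd : ∀ m, φ (pure m) = d m := fun m => ultrafilter_extend_pure d m
  let E : Set ℕ := {n | y n ∈ range φ}
  have hE : E ∈ q := by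
    by_contra hE
    have hclosed : IsClosed (range φ) := (isCompact_range hφc).isClosed
    obtain ⟨Z, hZ1, hZ2⟩ := separate d y univ Eᶜ
      (fun m _ => (hd m).on_set y Eᶜ fun n hn => ⟨hy1 n, fun h => hn ⟨pure m, (hφd m).trans h.symm⟩⟩)
      (fun n hn => by
        obtain ⟨_, ⟨B, rfl⟩, hB1, hB2⟩ :=
          ultrafilterBasis_is_basis.exists_subset_of_mem_open (show y n ∈ (range φ)ᶜ from hn)
            hclosed.isOpen_compl
        exact ⟨B, hB1, fun m _ h => hB2 h ⟨pure m, hφd m⟩⟩)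
    have h1 : Z ∈ φ p := mem_extend_of d p Z (Eventually.of_forall fun m => hZ1 m trivial)
    obtain ⟨n, hn1, hn2⟩ := ((tendsto_ultra_iff.mp hy3 Z h1).and
      (Ultrafilter.mem_coe.mpr (Ultrafilter.compl_mem_iff_notMem.mpr hE))).exists
    exact hZ2 n hn2 hn1
  have hr : ∀ n ∈ E, ∃ r, φ r = y n := fun n hn => hn
  choose! r hr using hr
  have hlim : Tendsto r q (𝓝 p) := by
    have h1 := tendsto_extend r q
    have h2 : Tendsto (fun n => φ (r n)) q (𝓝 (φ (Ultrafilter.extend r q))) :=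
      (hφc.tendsto _).comp h1
    have h3 : Tendsto (fun n => φ (r n)) q (𝓝 (φ p)) :=
      hy3.congr' (mem_of_superset (Ultrafilter.mem_coe.mpr hE) fun n hn => (hr n hn).symm)
    have h4 := extend_injective hd hinj (tendsto_nhds_unique h2 h3)
    rwa [h4] at h1
  let E₁ : Set ℕ := {n | n ∈ E ∧ (r n : Filter ℕ) ≤ cofinite}
  have hE₁ : E₁ ∉ q := by
    intro hE₁
    obtain ⟨A, hA1, hA2⟩ := hp.on_set r E₁ fun n hn => ⟨hn.2, fun h => hy2 n (by
      rw [← hr n hn.1, h])⟩
    obtain ⟨n, hn1, hn2⟩ := ((tendsto_ultra_iff.mp hlim A hA1).and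
      (Ultrafilter.mem_coe.mpr hE₁)).exists
    exact hA2 n hn2 hn1
  have h0 : ∀ n, n ∈ E → n ∉ E₁ → ∃ a, r n = pure a := fun n hn hn1 =>
    (r n).le_cofinite_or_eq_pure.resolve_left fun h => hn1 ⟨hn, h⟩
  choose! h hh using h0
  refine ⟨h, Ultrafilter.eq_of_le fun A hA => ?_⟩
  change h ⁻¹' A ∈ (q : Filter ℕ)
  filter_upwards [tendsto_ultra_iff.mp hlim A hA, Ultrafilter.mem_coe.mpr hE,
    Ultrafilter.mem_coe.mpr (Ultrafilter.compl_mem_iff_notMem.mpr hE₁)] with n hn1 hn2 hn3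
  rw [hh n hn2 hn3] at hn1
  exact hn1

end Seq

section Count

variable {W : Type} [TopologicalSpace W] {j : W → Ultrafilter ℕ}

lemma card_contMap_le (hj : IsEmbedding j) : #C(W, W) ≤ 2 ^ 𝔠 := by
  classical
  rcases isEmpty_or_nonempty W with hW | hW
  · have : Subsingleton C(W, W) := ⟨fun f g => ContinuousMap.ext fun x => isEmptyElim x⟩
    exact (le_one_iff_subsingleton.mpr this).trans
      (Cardinal.one_le_iff_ne_zero.mpr (power_ne_zero _ two_ne_zero))
  have : T2Space W := hj.t2Space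
  have hch : ∀ A : Set ℕ, ∃ w : W, (∃ v, A ∈ j v) → A ∈ j w := by
    intro A
    by_cases h : ∃ v, A ∈ j v
    · obtain ⟨v, hv⟩ := h
      exact ⟨v, fun _ => hv⟩
    · exact ⟨Classical.arbitrary W, fun h' => absurd h' h⟩
  choose w hw using hch
  have hdense : Dense (range w) := by
    rw [(ultrafilterBasis_is_basis.isInducing hj.isInducing).dense_iff]
    rintro _ ⟨_, ⟨A, rfl⟩, rfl⟩ ⟨v, hv⟩
    exact ⟨w A, hw A ⟨v, hv⟩, A, rfl⟩
  have hinj : Function.Injective (fun (f : C(W, W)) (A : Set ℕ) => (j (f (w A)) : Filter ℕ).sets) := by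
    intro f g h
    refine ContinuousMap.ext (congrFun (f.continuous.ext_on hdense g.continuous ?_))
    rintro _ ⟨A, rfl⟩
    exact hj.injective (Ultrafilter.coe_injective (Filter.filter_eq (congrFun h A)))
  refine (mk_le_of_injective hinj).trans (le_of_eq ?_)
  simp [← power_mul]

theorem card_orbits (hj : IsEmbedding j) (hr : ∀ p, p ∈ range j ↔ (p : Filter ℕ) ≤ cofinite) :
    #(range fun f : C(W, W) => {g : C(W, W) | ∃ h : C(W, W) ≃ₜ C(W, W), h f = g}) = 2 ^ 𝔠 := by
  classical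
  apply le_antisymm (mk_range_le.trans (card_contMap_le hj))
  have hcompact : CompactSpace W := by
    rw [← isCompact_univ_iff, hj.isCompact_iff, image_univ]
    have : range j = ⋂ A ∈ (cofinite : Filter ℕ), {u : Ultrafilter ℕ | A ∈ u} := by
      ext p
      rw [hr]
      simp only [mem_iInter, mem_ofPred_eq]
      rfl
    rw [this]
    exact (isClosed_biInter fun A _ => ultrafilter_isClosed_basic A).isCompact
  obtain ⟨P, hP1, hP2⟩ := exists_many_weakP
  let i : ℕ ↪ ((ℕ → Bool) → Bool) := Infinite.natEmbedding _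
  let d : ℕ → Ultrafilter ℕ := fun m => P (i m)
  have hd : ∀ m, IsWeakP (d m) := fun m => hP2 _
  have hinj : Function.Injective d := hP1.comp i.injective
  have hx : ∀ r, ∃ w, j w = Ultrafilter.extend d r := fun r =>
    (hr _).mpr (extend_le_cofinite hd r)
  choose x hx using hx
  let O : C(W, W) → Set C(W, W) := fun f => {g | ∃ h : C(W, W) ≃ₜ C(W, W), h f = g}
  have key : ∀ p q : Ultrafilter ℕ, IsWeakP p → IsWeakP q →
      O (ContinuousMap.const W (x p)) = O (ContinuousMap.const W (x q)) →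
      ∃ h : ℕ → ℕ, p.map h = q := by
    intro p q hp hq hO
    have : ContinuousMap.const W (x q) ∈ O (ContinuousMap.const W (x p)) := by
      rw [hO]
      exact ⟨Homeomorph.refl _, rfl⟩
    obtain ⟨Φ, hΦ⟩ := this
    have h1 : Tendsto (fun m => x (pure m)) p (𝓝 (x p)) := by
      rw [hj.tendsto_nhds_iff, hx]
      refine (tendsto_extend d p).congr fun m => ?_
      simp [hx]
    have h2 : Tendsto (fun m => Φ (ContinuousMap.const W (x (pure m)))) p
        (𝓝 (ContinuousMap.const W (x q))) := by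
      rw [← hΦ]
      exact ((Φ.continuous.comp ContinuousMap.continuous_const').tendsto _).comp h1
    have h3 : ∀ m, ∃ t, Φ (ContinuousMap.const W (x (pure m))) t ≠ x q := by
      intro m
      by_contra! h
      have h4 : Φ (ContinuousMap.const W (x (pure m))) = Φ (ContinuousMap.const W (x p)) := by
        rw [hΦ]
        exact ContinuousMap.ext h
      have h5 : x (pure m) = x p := DFunLike.congr_fun (Φ.injective h4) (x p)
      have h6 : pure m = p := extend_injective hd hinj (by rw [← hx, ← hx, h5])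
      have h7 := hp.1 (finite_singleton m).compl_mem_cofinite
      rw [← h6] at h7
      simp at h7
    choose t ht using h3
    refine rk_le hd hinj hq p (fun m => j (Φ (ContinuousMap.const W (x (pure m))) (t m)))
      (fun m => (hr _).mp ⟨_, rfl⟩) (fun m h => ht m (hj.injective (h.trans (hx q).symm))) ?_
    rw [← hx]
    refine (hj.continuous.tendsto _).comp ?_
    rw [ContinuousMap.tendsto_nhds_compactOpen] at h2
    rw [tendsto_nhds]
    intro U hU hxU
    filter_upwards [h2 univ isCompact_univ U hU (fun _ _ => hxU)] with m hm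
    exact hm (mem_univ (t m))
  let g : ((ℕ → Bool) → Bool) → range O := fun s => ⟨O (ContinuousMap.const W (x (P s))), _, rfl⟩
  have hsec : ∀ s, ∃ h : ℕ → ℕ, (P (Function.invFun g (g s))).map h = P s := by
    intro s
    refine key _ _ (hP2 _) (hP2 _) ?_
    exact congrArg Subtype.val (Function.invFun_eq (f := g) ⟨s, rfl⟩)
  choose h hh using hsec
  have hinj2 : Function.Injective (fun s => (g s, h s)) := by
    intro s s' hs
    simp only [Prod.mk.injEq] at hs
    apply hP1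
    rw [← hh s, ← hh s', hs.1, hs.2]
  have hle := mk_le_of_injective hinj2
  by_contra hlt
  have hlt : #(range O) < 2 ^ 𝔠 := not_le.mp hlt
  have h2 : #(range O × (ℕ → ℕ)) < 2 ^ 𝔠 := by
    rw [mk_prod, lift_id, lift_id]
    refine mul_lt_of_lt (aleph0_le_continuum.trans (cantor _).le) hlt ?_
    simpa using cantor 𝔠
  refine absurd hle (not_le.mpr (h2.trans_le (le_of_eq ?_)))
  simp

end Count

/-- The Stone-Čech compactification of `ℕ` is the space of ultrafilters. -/
lemma exists_homeo : ∃ e : StoneCech ℕ ≃ₜ Ultrafilter ℕ, ∀ n, e (stoneCechUnit n) = pure n := by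
  have hc : Continuous (pure : ℕ → Ultrafilter ℕ) := continuous_of_discreteTopology
  let f : StoneCech ℕ → Ultrafilter ℕ := stoneCechExtend hc
  let g : Ultrafilter ℕ → StoneCech ℕ := Ultrafilter.extend stoneCechUnit
  have hf : Continuous f := continuous_stoneCechExtend hc
  have hg : Continuous g := continuous_ultrafilter_extend _
  have h1 : g ∘ f = id := stoneCech_hom_ext (hg.comp hf) continuous_id (by
    funext n
    simp [f, g])
  have h2 : f ∘ g = id := (hf.comp hg).ext_on denseRange_pure continuous_id (by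
    rintro _ ⟨n, rfl⟩
    simp [f, g])
  exact ⟨⟨⟨f, g, congrFun h1, congrFun h2⟩, hf, hg⟩, fun n => by simp [f]⟩

end Pool.Agent.Lib.MP_7279d0_gt
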