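import Mathlib
import Pool.Agent.Lib.MP_7279d0_gt.Orbits

set_option autoImplicit false

open Filter Set Cardinal Topology

namespace Pool.Agent.Lib.MP_7279d0_gt

/-- Distinct weak P-points carry pairwise disjoint sets. -/
lemma exists_disjoint_sets {d : ℕ → Ultrafilter ℕ} (hd : ∀ m, IsWeakP (d m))
    (hinj : Function.Injective d) :
    ∃ Z : ℕ → Set ℕ, (∀ m, Z m ∈ d m) ∧ ∀ m n, m ≠ n → Disjoint (Z m) (Z n) := by
  have h : ∀ m, ∃ A ∈ d m, ∀ n ∈ {n | n ≠ m}, A ∉ d n := fun m =>
    (hd m).on_set d {n | n ≠ m} fun n hn => ⟨(hd n).1, fun h => hn (hinj h)⟩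
  choose A hA1 hA2 using h
  have key : ∀ m n, n < m →
      Disjoint (A m ∩ ⋂ k ∈ Finset.range m, (A k)ᶜ) (A n ∩ ⋂ k ∈ Finset.range n, (A k)ᶜ) := by
    intro m n hnm
    rw [Set.disjoint_left]
    rintro a ⟨_, h1⟩ ⟨h2, _⟩
    exact (mem_iInter₂.mp h1 n (Finset.mem_range.mpr hnm)) h2
  refine ⟨fun m => A m ∩ ⋂ k ∈ Finset.range m, (A k)ᶜ, fun m => ?_, fun m n hmn => ?_⟩
  · refine Ultrafilter.mem_coe.mp (inter_mem (Ultrafilter.mem_coe.mpr (hA1 m)) ?_)
    rw [biInter_finset_mem]
    intro k hk
    exact Ultrafilter.mem_coe.mpr (Ultrafilter.compl_mem_iff_notMem.mpr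
      (hA2 k m (Finset.mem_range.mp hk).ne'))
  · rcases lt_or_gt_of_ne hmn with h | h
    · exact (key n m h).symm
    · exact key m n h

/-- A sequence of ultrafilters living on pairwise disjoint sets does not converge. -/
lemma not_tendsto_of_disjoint {Z : ℕ → Set ℕ} (hZ : ∀ m n, m ≠ n → Disjoint (Z m) (Z n))
    {z : ℕ → Ultrafilter ℕ} (hz : ∀ k, Z k ∈ z k) (x : Ultrafilter ℕ) :
    ¬ Tendsto z atTop (𝓝 x) := by
  intro h
  rw [tendsto_ultra_iff] at h
  rcases x.mem_or_compl_mem (⋃ k, Z (2 * k)) with h1 | h1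
  · obtain ⟨k₀, hk₀⟩ := eventually_atTop.mp (h _ h1)
    obtain ⟨a, ha1, ha2⟩ := (z (2 * k₀ + 1)).neBot.nonempty_of_mem
      (inter_mem (Ultrafilter.mem_coe.mpr (hk₀ (2 * k₀ + 1) (by omega)))
        (Ultrafilter.mem_coe.mpr (hz (2 * k₀ + 1))))
    obtain ⟨k, hk⟩ := mem_iUnion.mp ha1
    exact Set.disjoint_left.mp (hZ (2 * k) (2 * k₀ + 1) (by omega)) hk ha2
  · obtain ⟨k₀, hk₀⟩ := eventually_atTop.mp (h _ h1)
    obtain ⟨a, ha1, ha2⟩ := (z (2 * k₀)).neBot.nonempty_of_mem
      (inter_mem (Ultrafilter.mem_coe.mpr (hk₀ (2 * k₀) (by omega)))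
        (Ultrafilter.mem_coe.mpr (hz (2 * k₀))))
    exact ha1 (mem_iUnion.mpr ⟨k₀, ha2⟩)

section Count

variable {W : Type} [TopologicalSpace W] {j : W → Ultrafilter ℕ}

theorem card_orbits_pow (hj : IsEmbedding j)
    (hr : ∀ p, p ∈ range j ↔ (p : Filter ℕ) ≤ cofinite) (I : Type) [Nonempty I] :
    2 ^ 𝔠 ≤ #(range fun f : I → C(W, W) =>
      {g : I → C(W, W) | ∃ h : (I → C(W, W)) ≃ₜ (I → C(W, W)), h f = g}) := by
  classical
  have hcompact : CompactSpace W := by
    rw [← isCompact_univ_iff, hj.isCompact_iff, image_univ]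
    have : range j = ⋂ A ∈ (cofinite : Filter ℕ), {u : Ultrafilter ℕ | A ∈ u} := by
      ext p
      rw [hr]
      simp only [mem_iInter, mem_ofPred_eq]
      rfl
    rw [this]
    exact (isClosed_biInter fun A _ => ultrafilter_isClosed_basic A).isCompact
  obtain ⟨P, hP1, hP2⟩ := exists_many_weakP
  let i : ℕ ↪ ((ℕ → Bool) → Bool) := Infinite.natEmbedding _
  let d : ℕ → Ultrafilter ℕ := fun m => P (i m)
  have hd : ∀ m, IsWeakP (d m) := fun m => hP2 _
  have hinj : Function.Injective d := hP1.comp i.injective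
  have hx : ∀ r, ∃ w, j w = Ultrafilter.extend d r := fun r =>
    (hr _).mpr (extend_le_cofinite hd r)
  choose x hx using hx
  obtain ⟨Z, hZ1, hZ2⟩ := exists_disjoint_sets hd hinj
  let i₀ : I := Classical.arbitrary I
  let c : Ultrafilter ℕ → C(W, W) := fun r => ContinuousMap.const W (x r)
  let O : (I → C(W, W)) → Set (I → C(W, W)) :=
    fun f => {g | ∃ h : (I → C(W, W)) ≃ₜ (I → C(W, W)), h f = g}
  have hpure : ∀ (p : Ultrafilter ℕ), IsWeakP p → ∀ m : ℕ, pure m ≠ p := by
    intro p hp m h6
    have h7 := hp.1 (finite_singleton m).compl_mem_cofinite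
    rw [← h6] at h7
    simp at h7
  have key : ∀ p q : Ultrafilter ℕ, IsWeakP p → IsWeakP q →
      O (fun _ => c p) = O (fun _ => c q) → ∃ h : ℕ → ℕ, p.map h = q := by
    intro p q hp hq hO
    have : (fun _ => c q) ∈ O (fun _ => c p) := by
      rw [hO]
      exact ⟨Homeomorph.refl _, rfl⟩
    obtain ⟨Φ, hΦ⟩ := this
    have h1 : Tendsto (fun m => x (pure m)) p (𝓝 (x p)) := by
      rw [hj.tendsto_nhds_iff, hx]
      refine (tendsto_extend d p).congr fun m => ?_
      simp [hx]
    have h1' : Tendsto (fun m => fun _ : I => c (pure m)) p (𝓝 (fun _ : I => c p)) :=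
      tendsto_pi_nhds.mpr fun _ => (ContinuousMap.continuous_const'.tendsto _).comp h1
    set f : ℕ → I → C(W, W) := fun m => Φ (fun _ => c (pure m)) with hf
    have h2 : Tendsto f p (𝓝 (fun _ => c q)) := by
      rw [← hΦ]
      exact (Φ.continuous.tendsto _).comp h1'
    by_cases hcase : ∃ a : I, {m | f m a ≠ c q} ∈ p
    · obtain ⟨a, ha⟩ := hcase
      have h3 : ∀ m, f m a ≠ c q → ∃ t, f m a t ≠ x q := by
        intro m hm
        by_contra! h
        exact hm (ContinuousMap.ext h)
      have : Nonempty W := ⟨x p⟩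
      choose! t ht using h3
      refine rk_le hd hinj hq p (fun m => if f m a ≠ c q then j (f m a (t m)) else d 0)
        (fun m => ?_) (fun m => ?_) ?_
      · split_ifs
        · exact (hr _).mp ⟨_, rfl⟩
        · exact (hd 0).1
      · split_ifs with hm
        · exact fun h => ht m hm (hj.injective (h.trans (hx q).symm))
        · intro h
          exact hpure q hq 0 (extend_injective hd hinj ((ultrafilter_extend_pure d 0).trans h))
      · have h4 : Tendsto (fun m => j (f m a (t m))) p (𝓝 (Ultrafilter.extend d q)) := by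
          rw [← hx]
          refine (hj.continuous.tendsto _).comp ?_
          have h5 := tendsto_pi_nhds.mp h2 a
          rw [ContinuousMap.tendsto_nhds_compactOpen] at h5
          rw [tendsto_nhds]
          intro U hU hxU
          filter_upwards [h5 univ isCompact_univ U hU (fun _ _ => hxU)] with m hm
          exact hm (mem_univ (t m))
        refine h4.congr' ?_
        filter_upwards [Ultrafilter.mem_coe.mpr ha] with m hm
        exact (if_pos hm).symm
    · exfalso
      have hA : ∀ a : I, ∀ᶠ m in (p : Filter ℕ), f m a = c q := by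
        intro a
        have h3 := Ultrafilter.compl_mem_iff_notMem.mpr (fun h => hcase ⟨a, h⟩)
        filter_upwards [Ultrafilter.mem_coe.mpr h3] with m hm
        simpa using hm
      let ev : (I → C(W, W)) → Ultrafilter ℕ := fun g => j (Φ.symm g i₀ (x p))
      have hev : Continuous ev :=
        hj.continuous.comp ((continuous_eval_const (x p)).comp
          ((continuous_apply i₀).comp Φ.symm.continuous))
      have hF : ∀ m, ∃ F : Finset I, ∀ g : I → C(W, W), (∀ a ∈ F, g a = f m a) → Z m ∈ ev g := by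
        intro m
        have hopen : IsOpen (ev ⁻¹' {u | Z m ∈ u}) := (ultrafilter_isOpen_basic _).preimage hev
        have hmem : f m ∈ ev ⁻¹' {u | Z m ∈ u} := by
          change Z m ∈ j (Φ.symm (Φ _) i₀ (x p))
          rw [Φ.symm_apply_apply]
          change Z m ∈ j (x (pure m))
          rw [hx, ultrafilter_extend_pure]
          exact hZ1 m
        obtain ⟨F, u, hu1, hu2⟩ := isOpen_pi_iff.mp hopen _ hmem
        exact ⟨F, fun g hg => hu2 fun a ha => (hg a ha).symm ▸ (hu1 a ha).2⟩
      choose F hF using hF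
      have hfreq : ∀ n, ∃ᶠ m in atTop, ∀ l ∈ Finset.range (n + 1), ∀ a ∈ F l, f m a = c q := by
        intro n
        have h3 : ∀ᶠ m in (p : Filter ℕ), ∀ l ∈ Finset.range (n + 1), ∀ a ∈ F l, f m a = c q := by
          rw [eventually_all_finset]
          intro l _
          rw [eventually_all_finset]
          exact fun a _ => hA a
        rw [← Nat.cofinite_eq_atTop]
        exact h3.frequently.filter_mono hp.1
      obtain ⟨φ, hφ1, hφ2⟩ := extraction_forall_of_frequently hfreq
      let g : ℕ → I → C(W, W) := fun k a => if a ∈ F (φ k) then f (φ k) a else c q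
      have hg : Tendsto g atTop (𝓝 (fun _ => c q)) := by
        refine tendsto_pi_nhds.mpr fun a => tendsto_const_nhds.congr' ?_
        by_cases ha : ∃ l, a ∈ F l
        · obtain ⟨l, hl⟩ := ha
          filter_upwards [eventually_ge_atTop l] with k hk
          have := hφ2 k l (Finset.mem_range.mpr (by omega)) a hl
          simp only [g]
          split_ifs
          · exact this.symm
          · rfl
        · refine Eventually.of_forall fun k => ?_
          simp only [g]
          rw [if_neg fun h => ha ⟨_, h⟩]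
      exact not_tendsto_of_disjoint (Z := fun k => Z (φ k))
        (fun m n hmn => hZ2 _ _ fun h => hmn (hφ1.injective h))
        (z := fun k => ev (g k)) (fun k => hF _ _ fun a ha => if_pos ha) _
        ((hev.tendsto _).comp hg)
  let g : ((ℕ → Bool) → Bool) → range O := fun s => ⟨O (fun _ => c (P s)), _, rfl⟩
  have hsec : ∀ s, ∃ h : ℕ → ℕ, (P (Function.invFun g (g s))).map h = P s := by
    intro s
    refine key _ _ (hP2 _) (hP2 _) ?_
    exact congrArg Subtype.val (Function.invFun_eq (f := g) ⟨s, rfl⟩)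
  choose h hh using hsec
  have hinj2 : Function.Injective (fun s => (g s, h s)) := by
    intro s s' hs
    simp only [Prod.mk.injEq] at hs
    apply hP1
    rw [← hh s, ← hh s', hs.1, hs.2]
  have hle := mk_le_of_injective hinj2
  by_contra hlt
  have hlt : #(range O) < 2 ^ 𝔠 := not_le.mp hlt
  have h2 : #(range O × (ℕ → ℕ)) < 2 ^ 𝔠 := by
    rw [mk_prod, lift_id, lift_id]
    refine mul_lt_of_lt (aleph0_le_continuum.trans (cantor _).le) hlt ?_
    simpa using cantor 𝔠
  refine absurd hle (not_le.mpr (h2.trans_le (le_of_eq ?_)))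
  simp

end Count

end Pool.Agent.Lib.MP_7279d0_gt
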